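import Pool.Agent.Helper77.BN.Cover
import Pool.Agent.Helper77.BN.NonIso

/-!
# MP_a6e7fb_an: the factor `βℕ × βℕ` cannot be cancelled

For every nonempty compact metric space `K` the Banach space `C(βℕ × βℕ × K)` is isomorphic to
`C(βℕ × βℕ)`.  Hence `C(βℕ × βℕ × K₁)` and `C(βℕ × βℕ × K₂)` are isomorphic for all infinite
compact metric spaces `K₁`, `K₂`, while `C(K₁)` and `C(K₂)` need not be: `K₁ = ω + 1` and `K₂` the
Cantor space is an example.
-/

set_option autoImplicit false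

namespace Pool.Agent.Results.MP_a6e7fb_an.FactorAbsorbed

/-- Two real normed spaces are isomorphic: there is a bounded linear bijection `E → F`.
(For Banach spaces its inverse is then bounded.) -/
def Isomorphic (E F : Type) [NormedAddCommGroup E] [NormedSpace ℝ E]
    [NormedAddCommGroup F] [NormedSpace ℝ F] : Prop :=
  ∃ T : E →ₗ[ℝ] F, Function.Bijective T ∧ ∃ c : ℝ, ∀ x : E, ‖T x‖ ≤ c * ‖x‖

/-- The Stone–Čech compactification of the discrete space `ℕ`. -/
abbrev βℕ : Type := StoneCech ℕ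

theorem isomorphic_of_equiv {E F : Type} [NormedAddCommGroup E] [NormedSpace ℝ E]
    [NormedAddCommGroup F] [NormedSpace ℝ F] (h : Nonempty (E ≃L[ℝ] F)) : Isomorphic E F := by
  obtain ⟨T⟩ := h
  exact ⟨T.toLinearEquiv.toLinearMap, T.bijective, ‖(T : E →L[ℝ] F)‖,
    fun x => (T : E →L[ℝ] F).le_opNorm x⟩

theorem Isomorphic.equiv {E F : Type} [NormedAddCommGroup E] [NormedSpace ℝ E] [CompleteSpace E]
    [NormedAddCommGroup F] [NormedSpace ℝ F] [CompleteSpace F] (h : Isomorphic E F) :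
    Nonempty (E ≃L[ℝ] F) := by
  obtain ⟨T, ⟨h1, h2⟩, c, hc⟩ := h
  exact ⟨ContinuousLinearEquiv.ofBijective (T.mkContinuous c hc)
    (LinearMap.ker_eq_bot.mpr h1) (LinearMap.range_eq_top.mpr h2)⟩

/-- `C(βℕ × βℕ × K)` is isomorphic to `C(βℕ × βℕ)` for every nonempty compact metric space `K`;
and there are infinite compact metric spaces `K₁`, `K₂` such that `C(βℕ × βℕ × K₁)` and
`C(βℕ × βℕ × K₂)` are isomorphic but `C(K₁)` and `C(K₂)` are not. -/
theorem result :
    (∀ (K : Type) [MetricSpace K] [CompactSpace K] [Nonempty K],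
      Isomorphic C(βℕ × βℕ × K, ℝ) C(βℕ × βℕ, ℝ)) ∧
    ∃ (K₁ K₂ : Type) (_ : MetricSpace K₁) (_ : CompactSpace K₁)
      (_ : MetricSpace K₂) (_ : CompactSpace K₂), Infinite K₁ ∧ Infinite K₂ ∧
      Isomorphic C(βℕ × βℕ × K₁, ℝ) C(βℕ × βℕ × K₂, ℝ) ∧
      ¬ Isomorphic C(K₁, ℝ) C(K₂, ℝ) := by
  refine ⟨fun K _ _ _ => isomorphic_of_equiv (Pool.Agent.Helper77.BN.Mil.absorbs K), ?_⟩
  have hm1 : TopologicalSpace.MetrizableSpace (OnePoint ℕ) :=
    Pool.Agent.Helper77.BN.sE_emb.isEmbedding.metrizableSpace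
  let m1 : MetricSpace (OnePoint ℕ) := TopologicalSpace.metrizableSpaceMetric (OnePoint ℕ)
  let m2 : MetricSpace (ℕ → Bool) := TopologicalSpace.metrizableSpaceMetric (ℕ → Bool)
  exact ⟨OnePoint ℕ, ℕ → Bool, m1, inferInstance, m2, inferInstance, inferInstance, inferInstance,
    isomorphic_of_equiv Pool.Agent.Helper77.BN.iso_UV,
    fun h => Pool.Agent.Helper77.BN.not_iso h.equiv⟩

end Pool.Agent.Results.MP_a6e7fb_an.FactorAbsorbed
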